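import Pool.Agent.H75.Eppa.Basic

/-!
# MP_d61016_co: the class of finite three-graphs has EPPA, with a witness that depends only on the number of vertices
-/

set_option autoImplicit false
open Classical

namespace Pool.Agent.Results.MP_d61016_co.UniversalExtension

open Pool.Agent.H75.Eppa

/-- A three-graph on the vertex set `V`: an equivalence relation `rel` with at most two classes, together with a
finite family `hyper` of sets (hyperedges), such that every hyperedge has four elements, exactly two from each
class, and every five-element set with at most three elements in each class contains an even number of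
hyperedges. -/
structure ThreeGraph (V : Type) where
  rel : V → V → Prop
  equivalence : Equivalence rel
  two_classes : ∀ a b c, rel a b ∨ rel b c ∨ rel a c
  hyper : Finset (Finset V)
  card_hyper : ∀ e ∈ hyper, e.card = 4
  two_two : ∀ e ∈ hyper, ∀ v ∈ e, (e.filter (fun w => rel v w)).card = 2
  even_hyper : ∀ S : Finset V, S.card = 5 → (∀ v ∈ S, (S.filter (fun w => rel v w)).card ≤ 3) →
    Even (hyper.filter (fun e => e ⊆ S)).card

/-- `p` is an isomorphism of the substructure of `A` with vertex set `S` onto a substructure of `A'`. -/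
def IsPartialIso {V V' : Type} (A : ThreeGraph V) (A' : ThreeGraph V') (S : Finset V) (p : V → V') : Prop :=
  Set.InjOn p (S : Set V) ∧ (∀ x ∈ S, ∀ y ∈ S, A.rel x y ↔ A'.rel (p x) (p y)) ∧
    ∀ e ⊆ S, e ∈ A.hyper ↔ e.image p ∈ A'.hyper

theorem isPartialIso_iff {V V' : Type} [d : DecidableEq V'] (A : ThreeGraph V) (A' : ThreeGraph V')
    (S : Finset V) (p : V → V') : IsPartialIso A A' S p ↔
      (Set.InjOn p (S : Set V) ∧ (∀ x ∈ S, ∀ y ∈ S, A.rel x y ↔ A'.rel (p x) (p y)) ∧
        ∀ e ⊆ S, e ∈ A.hyper ↔ @Finset.image V V' d p e ∈ A'.hyper) := by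
  have hd : (fun a b => Classical.propDecidable (a = b)) = d := Subsingleton.elim _ _
  subst hd
  exact Iff.rfl

/-- The vertex set of the big three-graph. -/
abbrev VB (n : ℕ) : Type := (Bool × Fin n) × (Fin n → ZMod 2)

theorem card_VB (n : ℕ) : Fintype.card (VB n) = n * 2 ^ (n + 1) := by
  simp only [Fintype.card_prod, Fintype.card_bool, Fintype.card_fin, Fintype.card_pi, ZMod.card,
    Finset.prod_const, Finset.card_univ]
  ring

/-- For every `n` there are a three-graph `B` with `n * 2 ^ (n + 1)` vertices and, for each three-graph `A` on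
`n` vertices, an embedding `f A` of `A` in `B`, such that every isomorphism of a substructure of one three-graph `A`
on `n` vertices with a substructure of another one `A'` extends to an automorphism of `B`. -/
theorem result (n : ℕ) :
    ∃ (B : ThreeGraph (Fin (n * 2 ^ (n + 1))))
      (f : ThreeGraph (Fin n) → Fin n → Fin (n * 2 ^ (n + 1))),
      (∀ A, IsPartialIso A B Finset.univ (f A)) ∧
      ∀ (A A' : ThreeGraph (Fin n)) (S : Finset (Fin n)) (p : Fin n → Fin n),
        IsPartialIso A A' S p →
        ∃ σ : Equiv.Perm (Fin (n * 2 ^ (n + 1))), IsPartialIso B B Finset.univ σ ∧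
          ∀ x ∈ S, σ (f A x) = f A' (p x) := by
  have hz2 : ∀ x : ZMod 2, x + x = 0 := by decide
  have hrep : ∀ A : ThreeGraph (Fin n), ∃ (s : Fin n → Bool) (G : Fin n → Fin n → ZMod 2),
      (∀ x y, A.rel x y ↔ s x = s y) ∧ ∀ e, e ∈ A.hyper ↔ IsH s G e := by
    intro A
    have h1 : ∀ e ∈ A.hyper, e.card = 4 ∧ ∀ v ∈ e, (e.filter (fun w => A.rel v w)).card = 2 :=
      fun e he => ⟨A.card_hyper e he, A.two_two e he⟩
    have h2 := A.even_hyper
    exact exists_repr A.rel A.hyper A.equivalence A.two_classes (by convert h1) (by convert h2)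
  choose s G hs hG using hrep
  set χ : ThreeGraph (Fin n) → Fin n → Fin n → ZMod 2 :=
    fun A x y => if s A x = false then G A x y else 0 with hχ
  set Dm : ThreeGraph (Fin n) → Fin n → Fin n → ZMod 2 := fun A x y => χ A x y + χ A y x with hDm
  have hDmsymm : ∀ A x y, Dm A x y = Dm A y x := by
    intro A x y; simp only [hDm]; rw [add_comm]
  have hDmG : ∀ A x y, s A x = false → s A y = true → Dm A x y = G A x y := by
    intro A x y hx hy
    simp [hDm, hχ, hx, hy]
  have hG' : ∀ A e, e ∈ A.hyper ↔ IsH (s A) (Dm A) e := by
    intro A e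
    rw [hG A e]
    have : Q (s A) (G A) e = Q (s A) (Dm A) e := by
      unfold Q
      refine Finset.sum_congr rfl (fun x hx => Finset.sum_congr rfl (fun y hy => ?_))
      rw [Finset.mem_filter] at hx hy
      exact (hDmG A x y hx.2 hy.2).symm
    unfold IsH
    rw [this]
  obtain ⟨ε⟩ : Nonempty (VB n ≃ Fin (n * 2 ^ (n + 1))) :=
    ⟨Fintype.equivFinOfCardEq (card_VB n)⟩
  obtain ⟨sideB, hsideB⟩ : ∃ sideB : Fin (n * 2 ^ (n + 1)) → Bool,
    ∀ i, sideB i = (ε.symm i).1.1 := ⟨_, fun _ => rfl⟩
  obtain ⟨DB', hDB'⟩ : ∃ DB' : Fin (n * 2 ^ (n + 1)) → Fin (n * 2 ^ (n + 1)) → ZMod 2,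
    ∀ i j, DB' i j = DB (ε.symm i) (ε.symm j) := ⟨_, fun _ _ => rfl⟩
  have hDB'symm : ∀ x y, DB' x y = DB' y x := by
    intro x y; rw [hDB', hDB', DB_symm]
  obtain ⟨HB, hHBmem⟩ : ∃ HB : Finset (Finset (Fin (n * 2 ^ (n + 1)))),
      ∀ e, e ∈ HB ↔ IsH sideB DB' e :=
    ⟨Finset.univ.filter (fun e => IsH sideB DB' e), fun e => by
      rw [Finset.mem_filter]; exact ⟨fun h => h.2, fun h => ⟨Finset.mem_univ _, h⟩⟩⟩
  have hax := axioms_of_side sideB DB' (fun i j => sideB i = sideB j) (fun _ _ => Iff.rfl) HB
    hHBmem
  let B : ThreeGraph (Fin (n * 2 ^ (n + 1))) :=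
    { rel := fun i j => sideB i = sideB j
      equivalence := ⟨fun _ => rfl, fun h => h.symm, fun h h' => h.trans h'⟩
      two_classes := by
        intro a b c
        show sideB a = sideB b ∨ sideB b = sideB c ∨ sideB a = sideB c
        generalize sideB a = u
        generalize sideB b = v
        generalize sideB c = w
        revert u v w; decide
      hyper := HB
      card_hyper := fun e he => (hax.1 e he).1
      two_two := by
        have := fun e he => (hax.1 e he).2
        convert this
      even_hyper := by
        have := hax.2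
        convert this }
  have hBrel : ∀ x y, B.rel x y ↔ sideB x = sideB y := fun _ _ => Iff.rfl
  have hBhyp : ∀ e, e ∈ B.hyper ↔ IsH sideB DB' e := hHBmem
  refine ⟨B, fun A x => ε ((s A x, x), χ A x), ?_, ?_⟩
  · intro A
    have hsf : ∀ x, sideB (ε ((s A x, x), χ A x)) = s A x := by
      intro x; simp [hsideB]
    have hinj : Function.Injective (fun x => ε ((s A x, x), χ A x)) := by
      intro x y hxy
      have := ε.injective hxy
      simp only [Prod.mk.injEq] at this
      exact this.1.2
    rw [isPartialIso_iff]
    refine ⟨hinj.injOn, ?_, ?_⟩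
    · intro x _ y _
      rw [hBrel, hsf, hsf, hs]
    · intro e _
      rw [hG', hBhyp]
      exact isH_image (s A) (Dm A) sideB DB' hDB'symm (fun x => ε ((s A x, x), χ A x)) e
        hinj.injOn false (fun x _ => by simp only [hsf]; simp) (fun _ => 0) (by
          intro x _ y _ _ _
          simp only [hDB', DB, Equiv.symm_apply_apply, hDm, add_zero])
  · intro A A' S p hp
    obtain ⟨hinj, hrp, hep⟩ := (isPartialIso_iff A A' S p).1 hp
    -- the shift of sides
    obtain ⟨τ, hτ⟩ : ∃ τ : Bool, ∀ x ∈ S, s A' (p x) = xor τ (s A x) := by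
      rcases S.eq_empty_or_nonempty with hS | ⟨x0, hx0⟩
      · exact ⟨false, by intro x hx; rw [hS] at hx; simp at hx⟩
      · refine ⟨xor (s A' (p x0)) (s A x0), ?_⟩
        intro x hx
        have h1 := hrp x0 hx0 x hx
        rw [hs, hs] at h1
        revert h1
        cases s A x0 <;> cases s A x <;> cases s A' (p x0) <;> cases s A' (p x) <;> simp
    -- permutations
    have hπex : ∀ c : Bool, ∃ π : Equiv.Perm (Fin n), ∀ x ∈ S.filter (fun x => s A x = c),
        π x = p x := by
      intro c
      apply exists_perm_extend
      intro x hx y hy hxy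
      rw [Finset.mem_coe, Finset.mem_filter] at hx hy
      exact hinj hx.1 hy.1 hxy
    choose π hπ using hπex
    have hπ' : ∀ c x, x ∈ S → s A x = c → π c x = p x := by
      intro c x hx hc
      exact hπ c x (Finset.mem_filter.2 ⟨hx, hc⟩)
    -- switching constants
    obtain ⟨κ, hκ⟩ : ∃ κ : Fin n → ZMod 2, ∀ x ∈ S, ∀ y ∈ S, s A x ≠ s A y →
        Dm A x y + Dm A' (p x) (p y) = κ x + κ y := by
      have hδ : ∀ a ∈ S, ∀ a' ∈ S, ∀ b ∈ S, ∀ b' ∈ S, s A a = false → s A a' = false →
          s A b = true → s A b' = true →
          (Dm A a b + Dm A' (p a) (p b)) + (Dm A a b' + Dm A' (p a) (p b')) +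
          (Dm A a' b + Dm A' (p a') (p b)) + (Dm A a' b' + Dm A' (p a') (p b')) = 0 := by
        intro a ha a' ha' b hb b' hb' e1 e2 e3 e4
        by_cases n1 : a = a'
        · subst n1
          generalize Dm A a b + Dm A' (p a) (p b) = u
          generalize Dm A a b' + Dm A' (p a) (p b') = v
          revert u v; decide
        by_cases n2 : b = b'
        · subst n2
          generalize Dm A a b + Dm A' (p a) (p b) = u
          generalize Dm A a' b + Dm A' (p a') (p b) = v
          revert u v; decide
        have hsub : ({a, a', b, b'} : Finset (Fin n)) ⊆ S := by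
          intro z hz
          simp only [Finset.mem_insert, Finset.mem_singleton] at hz
          rcases hz with rfl | rfl | rfl | rfl <;> assumption
        have h1 := hep _ hsub
        have himg : ({a, a', b, b'} : Finset (Fin n)).image p = {p a, p a', p b, p b'} := by
          simp [Finset.image_insert]
        rw [himg, hG', hG', isH_explicit (s A) (Dm A) e1 e2 e3 e4 n1 n2] at h1
        have m1 : p a ≠ p a' := fun h => n1 (hinj ha ha' h)
        have m2 : p b ≠ p b' := fun h => n2 (hinj hb hb' h)
        have q1 := hτ a ha
        have q2 := hτ a' ha'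
        have q3 := hτ b hb
        have q4 := hτ b' hb'
        rw [e1] at q1; rw [e2] at q2; rw [e3] at q3; rw [e4] at q4
        cases hτc : τ
        · rw [hτc] at q1 q2 q3 q4
          rw [isH_explicit (s A') (Dm A') q1 q2 q3 q4 m1 m2] at h1
          revert h1
          generalize Dm A a b = x1
          generalize Dm A a b' = x2
          generalize Dm A a' b = x3
          generalize Dm A a' b' = x4
          generalize Dm A' (p a) (p b) = y1
          generalize Dm A' (p a) (p b') = y2
          generalize Dm A' (p a') (p b) = y3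
          generalize Dm A' (p a') (p b') = y4
          intro h1
          have h2 : x1 + x2 + x3 + x4 = y1 + y2 + y3 + y4 := by
            revert h1
            generalize x1 + x2 + x3 + x4 = u
            generalize y1 + y2 + y3 + y4 = v
            revert u v; decide
          calc (x1 + y1) + (x2 + y2) + (x3 + y3) + (x4 + y4) =
              (x1 + x2 + x3 + x4) + (y1 + y2 + y3 + y4) := by ring
            _ = 0 := by rw [h2, hz2]
        · rw [hτc] at q1 q2 q3 q4
          rw [← four_comm, isH_explicit (s A') (Dm A') q3 q4 q1 q2 m2 m1] at h1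
          rw [hDmsymm A' (p b) (p a), hDmsymm A' (p b) (p a'), hDmsymm A' (p b') (p a),
            hDmsymm A' (p b') (p a')] at h1
          revert h1
          generalize Dm A a b = x1
          generalize Dm A a b' = x2
          generalize Dm A a' b = x3
          generalize Dm A a' b' = x4
          generalize Dm A' (p a) (p b) = y1
          generalize Dm A' (p a) (p b') = y2
          generalize Dm A' (p a') (p b) = y3
          generalize Dm A' (p a') (p b') = y4
          intro h1
          have h2 : x1 + x2 + x3 + x4 = y1 + y3 + y2 + y4 := by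
            revert h1
            generalize x1 + x2 + x3 + x4 = u
            generalize y1 + y3 + y2 + y4 = v
            revert u v; decide
          calc (x1 + y1) + (x2 + y2) + (x3 + y3) + (x4 + y4) =
              (x1 + x2 + x3 + x4) + (y1 + y3 + y2 + y4) := by ring
            _ = 0 := by rw [h2, hz2]
      by_cases hex : (∃ a ∈ S, s A a = false) ∧ (∃ b ∈ S, s A b = true)
      · obtain ⟨⟨a0, ha0, ea0⟩, ⟨b0, hb0, eb0⟩⟩ := hex
        refine ⟨fun x => if s A x = false then Dm A x b0 + Dm A' (p x) (p b0) else
          (Dm A a0 x + Dm A' (p a0) (p x)) + (Dm A a0 b0 + Dm A' (p a0) (p b0)), ?_⟩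
        have hmain : ∀ x ∈ S, ∀ y ∈ S, s A x = false → s A y = true →
            Dm A x y + Dm A' (p x) (p y) = (Dm A x b0 + Dm A' (p x) (p b0)) +
            ((Dm A a0 y + Dm A' (p a0) (p y)) + (Dm A a0 b0 + Dm A' (p a0) (p b0))) := by
          intro x hx y hy ex ey
          have := hδ x hx a0 ha0 y hy b0 hb0 ex ea0 ey eb0
          revert this
          generalize Dm A x y + Dm A' (p x) (p y) = u1
          generalize Dm A x b0 + Dm A' (p x) (p b0) = u2
          generalize Dm A a0 y + Dm A' (p a0) (p y) = u3
          generalize Dm A a0 b0 + Dm A' (p a0) (p b0) = u4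
          revert u1 u2 u3 u4; decide
        intro x hx y hy hxy
        cases ex : s A x
        · have ey : s A y = true := by
            cases hy2 : s A y
            · rw [ex, hy2] at hxy; exact absurd rfl hxy
            · rfl
          simp only [ex, ey, if_true, reduceCtorEq, if_false]
          exact hmain x hx y hy ex ey
        · have ey : s A y = false := by
            cases hy2 : s A y
            · rfl
            · rw [ex, hy2] at hxy; exact absurd rfl hxy
          simp only [ex, ey, if_true, reduceCtorEq, if_false]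
          rw [hDmsymm A x y, hDmsymm A' (p x) (p y), hmain y hy x hx ey ex]
          ring
      · refine ⟨fun _ => 0, ?_⟩
        intro x hx y hy hxy
        exfalso
        apply hex
        cases ex : s A x
        · have ey : s A y = true := by
            cases hy2 : s A y
            · rw [ex, hy2] at hxy; exact absurd rfl hxy
            · rfl
          exact ⟨⟨x, hx, ex⟩, ⟨y, hy, ey⟩⟩
        · have ey : s A y = false := by
            cases hy2 : s A y
            · rfl
            · rw [ex, hy2] at hxy; exact absurd rfl hxy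
          exact ⟨⟨y, hy, ey⟩, ⟨x, hx, ex⟩⟩
    -- the correction
    set F : Bool → Fin n → Fin n → ZMod 2 := fun c x y =>
      if (x ∈ S ∧ s A x = c) then χ A x y + χ A' (p x) (π (!c) y) else
      if (y ∈ S ∧ s A y = !c) then (χ A y x + χ A' (p y) (π c x)) + κ y else 0 with hF
    set κ' : Bool → Fin n → ZMod 2 := fun c x => if (x ∈ S ∧ s A x = c) then κ x else 0 with hκ'
    have hFκ : ∀ c x y, F c x y + F (!c) y x = κ' c x + κ' (!c) y := by
      intro c x y
      simp only [hF, hκ', Bool.not_not]
      by_cases h1 : x ∈ S ∧ s A x = c <;> by_cases h2 : y ∈ S ∧ s A y = !c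
      · simp only [h1, h2, and_self, if_true]
        rw [hπ' (!c) y h2.1 h2.2, hπ' c x h1.1 h1.2]
        rw [← hκ x h1.1 y h2.1 (by rw [h1.2, h2.2]; cases c <;> simp)]
        simp only [hDm]
        ring
      · rw [if_pos h1, if_neg h2, if_pos h1, if_pos h1, if_neg h2]
        generalize χ A x y + χ A' (p x) (π (!c) y) = u
        generalize κ x = v
        revert u v; decide
      · rw [if_neg h1, if_pos h2, if_pos h2, if_neg h1, if_pos h2]
        generalize χ A y x + χ A' (p y) (π c x) = u
        generalize κ y = v
        revert u v; decide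
      · rw [if_neg h1, if_neg h2, if_neg h2, if_neg h1, if_neg h1, if_neg h2]
    let θ : VB n ≃ VB n :=
      Equiv.ofBijective (theta τ π F) (Finite.injective_iff_bijective.1 (theta_injective τ π F))
    have hθ : ∀ v, θ v = theta τ π F v := fun v => rfl
    let σ : Equiv.Perm (Fin (n * 2 ^ (n + 1))) := ε.symm.trans (θ.trans ε)
    have hσ : ∀ i, ε.symm (σ i) = theta τ π F (ε.symm i) := by
      intro i
      simp only [σ, Equiv.trans_apply, Equiv.symm_apply_apply, hθ]
    have hσside : ∀ i, sideB (σ i) = xor τ (sideB i) := by
      intro i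
      simp only [hsideB, hσ, theta]
    refine ⟨σ, (isPartialIso_iff B B Finset.univ σ).2 ⟨σ.injective.injOn, ?_, ?_⟩, ?_⟩
    · intro x _ y _
      rw [hBrel, hBrel, hσside, hσside]
      cases τ <;> cases sideB x <;> cases sideB y <;> simp
    · intro e _
      rw [hBhyp, hBhyp]
      exact isH_image sideB DB' sideB DB' hDB'symm σ e σ.injective.injOn τ
        (fun x _ => hσside x) (fun i => κ' (ε.symm i).1.1 (ε.symm i).1.2) (by
          intro x _ y _ hx hy
          simp only [hDB', hσ]
          apply DB_theta τ π F κ' hFκ
          simp only [hsideB] at hx hy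
          rw [hx, hy]; rfl)
    · intro x hx
      apply ε.symm.injective
      rw [hσ, Equiv.symm_apply_apply, Equiv.symm_apply_apply]
      simp only [theta]
      rw [hτ x hx, hπ' (s A x) x hx rfl]
      congr 1
      funext y
      have : F (s A x) x ((π (!s A x)).symm y) = χ A x ((π (!s A x)).symm y) +
          χ A' (p x) (π (!s A x) ((π (!s A x)).symm y)) := by
        show (if (x ∈ S ∧ s A x = s A x) then _ else _) = _
        rw [if_pos ⟨hx, rfl⟩]
      rw [this, Equiv.apply_symm_apply]
      generalize χ A x ((π (!s A x)).symm y) = u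
      generalize χ A' (p x) y = v
      revert u v; decide

end Pool.Agent.Results.MP_d61016_co.UniversalExtension
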